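import Pool.Agent.Q295.KU.Stm

set_option autoImplicit false

/-!
# Jobs KU-FOC, KU-SOC, KU-SYM
-/

namespace Pool.Agent.Q272.KU

open Pool.Agent.Q295.KU Filter Topology

lemma swap_sum {n : ℕ} (A : Fin n → Fin n → ℝ) (hA : ∀ i j, A i j = A j i) (θ x : Fin n → ℝ) :
    (1 / 2 : ℝ) * ∑ i, ∑ j, A i j * (Real.sin (θ i - θ j) * (x i - x j)) =
      ∑ i, x i * ∑ j, A i j * Real.sin (θ i - θ j) := by
  have h1 : ∑ i, ∑ j, A i j * (Real.sin (θ i - θ j) * x j) =
      -∑ i, ∑ j, A i j * (Real.sin (θ i - θ j) * x i) := by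
    rw [Finset.sum_comm, ← Finset.sum_neg_distrib]
    apply Finset.sum_congr rfl
    intro i _
    rw [← Finset.sum_neg_distrib]
    apply Finset.sum_congr rfl
    intro j _
    have : Real.sin (θ j - θ i) = -Real.sin (θ i - θ j) := by
      rw [← Real.sin_neg]
      congr 1
      ring
    rw [hA j i, this]
    ring
  have h2 : ∑ i, ∑ j, A i j * (Real.sin (θ i - θ j) * (x i - x j)) =
      ∑ i, ∑ j, A i j * (Real.sin (θ i - θ j) * x i) -
        ∑ i, ∑ j, A i j * (Real.sin (θ i - θ j) * x j) := by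
    rw [← Finset.sum_sub_distrib]
    apply Finset.sum_congr rfl
    intro i _
    rw [← Finset.sum_sub_distrib]
    apply Finset.sum_congr rfl
    intro j _
    ring
  rw [h2, h1]
  have h3 : ∑ i, x i * ∑ j, A i j * Real.sin (θ i - θ j) =
      ∑ i, ∑ j, A i j * (Real.sin (θ i - θ j) * x i) := by
    apply Finset.sum_congr rfl
    intro i _
    rw [Finset.mul_sum]
    apply Finset.sum_congr rfl
    intro j _
    ring
  rw [h3]
  ring

lemma line_eventually {n : ℕ} (A : Fin n → Fin n → ℝ) (θ : Fin n → ℝ) (h : IsLocalMin (En A) θ)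
    (x : Fin n → ℝ) : ∀ᶠ t : ℝ in 𝓝 0, En A θ ≤ En A (fun i => θ i + t * x i) := by
  have hc : Tendsto (fun t : ℝ => (fun i => θ i + t * x i : Fin n → ℝ)) (𝓝 0) (𝓝 θ) := by
    have h1 : Continuous (fun t : ℝ => (fun i => θ i + t * x i : Fin n → ℝ)) := by fun_prop
    have h2 := h1.tendsto 0
    simpa using h2
  exact hc.eventually h

/-- Job KU-FOC. -/
theorem foc : S_FOC := by
  intro n A hA θ hmin
  set F : Fin n → ℝ := fun i => ∑ j, A i j * Real.sin (θ i - θ j) with hF
  have hder : HasDerivAt (fun t : ℝ => En A (fun i => θ i + t * F i))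
      ((1 / 2 : ℝ) * ∑ i, ∑ j, A i j * (Real.sin (θ i - θ j) * (F i - F j))) 0 := by
    unfold En
    apply HasDerivAt.const_mul
    apply HasDerivAt.fun_sum
    intro i _
    apply HasDerivAt.fun_sum
    intro j _
    apply HasDerivAt.const_mul
    have h1 : HasDerivAt (fun t : ℝ => θ i + t * F i - (θ j + t * F j)) (F i - F j) 0 := by
      have h2 : HasDerivAt (fun t : ℝ => θ i + t * F i) (F i) 0 := by
        simpa using ((hasDerivAt_id (0 : ℝ)).mul_const (F i)).const_add (θ i)
      have h3 : HasDerivAt (fun t : ℝ => θ j + t * F j) (F j) 0 := by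
        simpa using ((hasDerivAt_id (0 : ℝ)).mul_const (F j)).const_add (θ j)
      exact h2.sub h3
    have h4 := (h1.cos).const_sub 1
    refine h4.congr_deriv ?_
    simp only [zero_mul, add_zero]
    ring
  have hmin2 : IsLocalMin (fun t : ℝ => En A (fun i => θ i + t * F i)) 0 := by
    have := line_eventually A θ hmin F
    show ∀ᶠ t in 𝓝 (0 : ℝ), En A (fun i => θ i + 0 * F i) ≤ En A (fun i => θ i + t * F i)
    simpa using this
  have h0 := hmin2.hasDerivAt_eq_zero hder
  rw [swap_sum A hA] at h0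
  have h5 : ∑ i, F i * F i = 0 := h0
  have h6 := (Finset.sum_eq_zero_iff_of_nonneg (fun i _ => mul_self_nonneg (F i))).1 h5
  intro i
  exact mul_self_eq_zero.1 (h6 i (Finset.mem_univ i))

lemma tendsto_one_sub_cos (b : ℝ) :
    Tendsto (fun t : ℝ => (1 - Real.cos (t * b)) / t ^ 2) (𝓝[≠] 0) (𝓝 (b ^ 2 / 2)) := by
  have h1 : HasDerivAt (fun t : ℝ => Real.sin (t * (b / 2))) (b / 2) 0 := by
    have h2 : HasDerivAt (fun t : ℝ => t * (b / 2)) (b / 2) 0 := by
      simpa using (hasDerivAt_id (0 : ℝ)).mul_const (b / 2)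
    have h3 := h2.sin
    simpa using h3
  rw [hasDerivAt_iff_tendsto_slope] at h1
  have h2 := (h1.pow 2).const_mul 2
  have e : 2 * (b / 2) ^ 2 = b ^ 2 / 2 := by ring
  rw [e] at h2
  refine h2.congr' ?_
  filter_upwards [self_mem_nhdsWithin] with t ht
  have ht0 : t ≠ 0 := ht
  rw [slope_def_field]
  simp only [zero_mul, Real.sin_zero, sub_zero]
  have h3 : Real.cos (t * b) = 1 - 2 * Real.sin (t * (b / 2)) ^ 2 := by
    have : t * b = 2 * (t * (b / 2)) := by ring
    rw [this, Real.cos_two_mul, Real.cos_sq']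
    ring
  rw [h3]
  field_simp
  ring

/-- Job KU-SOC. -/
theorem soc : S_SOC := by
  intro n A θ hmin x
  have h1 := line_eventually A θ hmin x
  have h2 := line_eventually A θ hmin (fun i => -x i)
  have hlim : Tendsto (fun t : ℝ => ∑ i, ∑ j, A i j * Real.cos (θ i - θ j) *
      ((1 - Real.cos (t * (x i - x j))) / t ^ 2)) (𝓝[≠] 0)
      (𝓝 (∑ i, ∑ j, A i j * Real.cos (θ i - θ j) * ((x i - x j) ^ 2 / 2))) := by
    apply tendsto_finsetSum
    intro i _
    apply tendsto_finsetSum
    intro j _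
    exact (tendsto_one_sub_cos _).const_mul _
  have hnn : ∀ᶠ t : ℝ in 𝓝[≠] 0, 0 ≤ ∑ i, ∑ j, A i j * Real.cos (θ i - θ j) *
      ((1 - Real.cos (t * (x i - x j))) / t ^ 2) := by
    filter_upwards [h1.filter_mono nhdsWithin_le_nhds, h2.filter_mono nhdsWithin_le_nhds,
      self_mem_nhdsWithin] with t ht1 ht2 ht
    have ht0 : t ≠ 0 := ht
    have e : En A (fun i => θ i + t * x i) + En A (fun i => θ i + t * -x i) - 2 * En A θ =
        t ^ 2 * ∑ i, ∑ j, A i j * Real.cos (θ i - θ j) *
      ((1 - Real.cos (t * (x i - x j))) / t ^ 2) := by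
      unfold En
      rw [Finset.mul_sum, Finset.mul_sum, Finset.mul_sum, Finset.mul_sum, Finset.mul_sum,
        ← Finset.sum_add_distrib, ← Finset.sum_sub_distrib]
      apply Finset.sum_congr rfl
      intro i _
      rw [Finset.mul_sum, Finset.mul_sum, Finset.mul_sum, Finset.mul_sum, Finset.mul_sum,
        ← Finset.sum_add_distrib, ← Finset.sum_sub_distrib]
      apply Finset.sum_congr rfl
      intro j _
      have e1 : Real.cos (θ i + t * x i - (θ j + t * x j)) =
          Real.cos (θ i - θ j) * Real.cos (t * (x i - x j)) -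
            Real.sin (θ i - θ j) * Real.sin (t * (x i - x j)) := by
        rw [← Real.cos_add]
        congr 1
        ring
      have e2 : Real.cos (θ i + t * -x i - (θ j + t * -x j)) =
          Real.cos (θ i - θ j) * Real.cos (t * (x i - x j)) +
            Real.sin (θ i - θ j) * Real.sin (t * (x i - x j)) := by
        rw [← Real.cos_sub]
        congr 1
        ring
      rw [e1, e2]
      field_simp
      ring
    have h3 : 0 ≤ t ^ 2 * ∑ i, ∑ j, A i j * Real.cos (θ i - θ j) *
      ((1 - Real.cos (t * (x i - x j))) / t ^ 2) := by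
      rw [← e]
      linarith
    exact nonneg_of_mul_nonneg_right h3 (by positivity)
  have h4 := ge_of_tendsto hlim hnn
  have e : ∑ i, ∑ j, A i j * Real.cos (θ i - θ j) * (x i - x j) ^ 2 =
      2 * ∑ i, ∑ j, A i j * Real.cos (θ i - θ j) * ((x i - x j) ^ 2 / 2) := by
    rw [Finset.mul_sum]
    apply Finset.sum_congr rfl
    intro i _
    rw [Finset.mul_sum]
    apply Finset.sum_congr rfl
    intro j _
    ring
  rw [e]
  linarith

/-- Job KU-SYM. -/
theorem sym : S_SYM := by
  intro n M κ hκ hM hQ x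
  set X : ℝ := ∑ i, x i ^ 2 with hX
  set Y : ℝ := ∑ i, (∑ j, M i j * x j) ^ 2 with hY
  set y : Fin n → ℝ := fun i => (∑ j, M i j * x j) / κ with hy
  have hYy : ∑ i, y i ^ 2 = Y / κ ^ 2 := by
    rw [hY, Finset.sum_div]
    apply Finset.sum_congr rfl
    intro i _
    rw [hy]
    simp only [div_pow]
  have hcross : ∑ i, ∑ j, M i j * x i * y j = Y / κ := by
    rw [Finset.sum_comm, hY, Finset.sum_div]
    apply Finset.sum_congr rfl
    intro i _
    have : ∑ j, M j i * x j * y i = (∑ j, M i j * x j) * y i := by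
      rw [Finset.sum_mul]
      apply Finset.sum_congr rfl
      intro j _
      rw [hM j i]
    rw [this, hy]
    ring
  have h1 := (abs_le.1 (hQ (fun i => x i + y i))).2
  have h2 := (abs_le.1 (hQ (fun i => x i - y i))).1
  have e1 : ∑ i, ∑ j, M i j * (x i + y i) * (x j + y j) -
      ∑ i, ∑ j, M i j * (x i - y i) * (x j - y j) =
      4 * ∑ i, ∑ j, M i j * x i * y j := by
    have e2 : ∑ i, ∑ j, M i j * y i * x j = ∑ i, ∑ j, M i j * x i * y j := by
      rw [Finset.sum_comm]
      apply Finset.sum_congr rfl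
      intro i _
      apply Finset.sum_congr rfl
      intro j _
      rw [hM j i]
      ring
    have e3 : ∑ i, ∑ j, M i j * (x i + y i) * (x j + y j) -
      ∑ i, ∑ j, M i j * (x i - y i) * (x j - y j) =
      2 * ∑ i, ∑ j, M i j * x i * y j + 2 * ∑ i, ∑ j, M i j * y i * x j := by
      rw [Finset.mul_sum, Finset.mul_sum, ← Finset.sum_sub_distrib, ← Finset.sum_add_distrib]
      apply Finset.sum_congr rfl
      intro i _
      rw [Finset.mul_sum, Finset.mul_sum, ← Finset.sum_sub_distrib, ← Finset.sum_add_distrib]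
      apply Finset.sum_congr rfl
      intro j _
      ring
    rw [e3, e2]
    ring
  have e4 : ∑ i, (x i + y i) ^ 2 + ∑ i, (x i - y i) ^ 2 = 2 * X + 2 * ∑ i, y i ^ 2 := by
    rw [hX, Finset.mul_sum, Finset.mul_sum, ← Finset.sum_add_distrib, ← Finset.sum_add_distrib]
    apply Finset.sum_congr rfl
    intro i _
    ring
  have h3 : 4 * (Y / κ) ≤ κ * (2 * X + 2 * (Y / κ ^ 2)) := by
    rw [← hcross, ← e1, ← hYy, ← e4]
    linarith
  have h4 : κ * (2 * X + 2 * (Y / κ ^ 2)) = 2 * κ * X + 2 * (Y / κ) := by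
    field_simp
  rw [h4] at h3
  have h5 : Y / κ ≤ κ * X := by linarith
  rw [div_le_iff₀ hκ] at h5
  nlinarith

end Pool.Agent.Q272.KU
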