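import Pool.Agent.Q272.KU.A

set_option autoImplicit false

/-!
# Jobs KU-RHO, KU-CNT
-/

namespace Pool.Agent.Q272.KU

open Pool.Agent.Q295.KU Filter Topology

lemma form_split {n : ℕ} (A : Fin n → Fin n → ℝ) (μ : ℝ) (x : Fin n → ℝ) :
    ∑ i, ∑ j, A i j * (x i * x j) = μ * (∑ i, x i) ^ 2 + ∑ i, ∑ j, (A i j - μ) * x i * x j := by
  have h1 : μ * (∑ i, x i) ^ 2 = ∑ i, ∑ j, μ * (x i * x j) := by
    rw [sq, Finset.sum_mul_sum, Finset.mul_sum]
    apply Finset.sum_congr rfl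
    intro i _
    rw [Finset.mul_sum]
  rw [h1, ← Finset.sum_add_distrib]
  apply Finset.sum_congr rfl
  intro i _
  rw [← Finset.sum_add_distrib]
  apply Finset.sum_congr rfl
  intro j _
  ring

/-- Job KU-RHO. -/
theorem rho : S_RHO := by
  intro n A μ κ θ hμ hκ hQ h8 hsoc
  have hC := hsoc (fun i => Real.cos (θ i))
  have hS := hsoc (fun i => Real.sin (θ i))
  have hcs : ∀ i, Real.cos (θ i) ^ 2 + Real.sin (θ i) ^ 2 = 1 := fun i => Real.cos_sq_add_sin_sq _
  have e1 : ∑ i, ∑ j, A i j * Real.cos (θ i - θ j) * (Real.cos (θ i) - Real.cos (θ j)) ^ 2 +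
      ∑ i, ∑ j, A i j * Real.cos (θ i - θ j) * (Real.sin (θ i) - Real.sin (θ j)) ^ 2 =
      2 * ∑ i, ∑ j, A i j * Real.cos (θ i - θ j) -
        2 * ∑ i, ∑ j, A i j * Real.cos (θ i - θ j) ^ 2 := by
    rw [Finset.mul_sum, Finset.mul_sum, ← Finset.sum_add_distrib, ← Finset.sum_sub_distrib]
    apply Finset.sum_congr rfl
    intro i _
    rw [Finset.mul_sum, Finset.mul_sum, ← Finset.sum_add_distrib, ← Finset.sum_sub_distrib]
    apply Finset.sum_congr rfl
    intro j _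
    have h1 := hcs i
    have h2 := hcs j
    rw [Real.cos_sub]
    linear_combination (A i j * (Real.cos (θ i) * Real.cos (θ j) +
      Real.sin (θ i) * Real.sin (θ j))) * h1 + (A i j * (Real.cos (θ i) * Real.cos (θ j) +
      Real.sin (θ i) * Real.sin (θ j))) * h2
  have e2 : ∑ i, ∑ j, A i j * Real.cos (θ i - θ j) =
      ∑ i, ∑ j, A i j * (Real.cos (θ i) * Real.cos (θ j)) +
        ∑ i, ∑ j, A i j * (Real.sin (θ i) * Real.sin (θ j)) := by
    rw [← Finset.sum_add_distrib]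
    apply Finset.sum_congr rfl
    intro i _
    rw [← Finset.sum_add_distrib]
    apply Finset.sum_congr rfl
    intro j _
    rw [Real.cos_sub]
    ring
  have e3 : ∑ i, ∑ j, A i j * Real.cos (θ i - θ j) ^ 2 =
      (1 / 2) * (∑ i, ∑ j, A i j * ((1 : ℝ) * 1) +
        ∑ i, ∑ j, A i j * (Real.cos (2 * θ i) * Real.cos (2 * θ j)) +
        ∑ i, ∑ j, A i j * (Real.sin (2 * θ i) * Real.sin (2 * θ j))) := by
    rw [← Finset.sum_add_distrib, ← Finset.sum_add_distrib, Finset.mul_sum]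
    apply Finset.sum_congr rfl
    intro i _
    rw [← Finset.sum_add_distrib, ← Finset.sum_add_distrib, Finset.mul_sum]
    apply Finset.sum_congr rfl
    intro j _
    have h1 : Real.cos (2 * θ i) * Real.cos (2 * θ j) + Real.sin (2 * θ i) * Real.sin (2 * θ j) =
        2 * Real.cos (θ i - θ j) ^ 2 - 1 := by
      rw [← Real.cos_sub, ← Real.cos_two_mul]
      congr 1
      ring
    linear_combination (-(1 / 2) * A i j) * h1
  rw [form_split A μ (fun i => Real.cos (θ i)), form_split A μ (fun i => Real.sin (θ i))] at e2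
  rw [form_split A μ (fun _ => (1 : ℝ)), form_split A μ (fun i => Real.cos (2 * θ i)),
    form_split A μ (fun i => Real.sin (2 * θ i))] at e3
  have q1 := (abs_le.1 (hQ (fun i => Real.cos (θ i)))).2
  have q2 := (abs_le.1 (hQ (fun i => Real.sin (θ i)))).2
  have q3 := (abs_le.1 (hQ (fun _ => (1 : ℝ)))).1
  have q4 := (abs_le.1 (hQ (fun i => Real.cos (2 * θ i)))).1
  have q5 := (abs_le.1 (hQ (fun i => Real.sin (2 * θ i)))).1
  have s1 : ∑ i, Real.cos (θ i) ^ 2 + ∑ i, Real.sin (θ i) ^ 2 = n := by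
    rw [← Finset.sum_add_distrib]
    simp [hcs]
  have s2 : ∑ i, Real.cos (2 * θ i) ^ 2 + ∑ i, Real.sin (2 * θ i) ^ 2 = n := by
    rw [← Finset.sum_add_distrib]
    simp
  have s3 : ∑ _i : Fin n, (1 : ℝ) ^ 2 = n := by simp
  have s4 : ∑ _i : Fin n, (1 : ℝ) = n := by simp
  rw [s3] at q3
  rw [s4] at e3
  set R1 := (∑ i, Real.cos (θ i)) ^ 2
  set R2 := (∑ i, Real.sin (θ i)) ^ 2
  have hR3 : 0 ≤ (∑ i, Real.cos (2 * θ i)) ^ 2 := sq_nonneg _
  have hR4 : 0 ≤ (∑ i, Real.sin (2 * θ i)) ^ 2 := sq_nonneg _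
  have hn : (0 : ℝ) ≤ n := Nat.cast_nonneg n
  have hsum1 : κ * ∑ i, Real.cos (θ i) ^ 2 + κ * ∑ i, Real.sin (θ i) ^ 2 = κ * n := by
    rw [← mul_add, s1]
  have hsum2 : κ * ∑ i, Real.cos (2 * θ i) ^ 2 + κ * ∑ i, Real.sin (2 * θ i) ^ 2 = κ * n := by
    rw [← mul_add, s2]
  have hm1 : 0 ≤ μ * (∑ i, Real.cos (2 * θ i)) ^ 2 := mul_nonneg hμ.le hR3
  have hm2 : 0 ≤ μ * (∑ i, Real.sin (2 * θ i)) ^ 2 := mul_nonneg hμ.le hR4
  have hfin : μ * ((n : ℝ) ^ 2 / 4) ≤ μ * (R1 + R2) := by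
    have h9 : 8 * κ * n ≤ μ * n * n := mul_le_mul_of_nonneg_right h8 hn
    nlinarith
  exact le_of_mul_le_mul_left hfin hμ

/-- The plane estimate. -/
lemma plane_est (a r u v : ℝ) (ha : 0 ≤ a) (hr : 0 ≤ r) (huv : u ^ 2 + v ^ 2 = 1) :
    a ^ 2 * ((u - 1) ^ 2 + v ^ 2) ≤ 4 * ((r * u - a) ^ 2 + (r * v) ^ 2) := by
  have hu1 : -1 ≤ u := by nlinarith [sq_nonneg v]
  have hu2 : u ≤ 1 := by nlinarith [sq_nonneg v]
  have e1 : (u - 1) ^ 2 + v ^ 2 = 2 - 2 * u := by linear_combination huv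
  have e2 : (r * u - a) ^ 2 + (r * v) ^ 2 = r ^ 2 - 2 * a * r * u + a ^ 2 := by
    linear_combination r ^ 2 * huv
  rw [e1, e2]
  by_cases hu : -(1 / 2) ≤ u
  · have h1 : 0 ≤ a ^ 2 * ((1 - u) * (1 + 2 * u)) :=
      mul_nonneg (sq_nonneg a) (mul_nonneg (by linarith) (by linarith))
    nlinarith [sq_nonneg (r - a * u)]
  · push Not at hu
    have h1 : 0 ≤ a * r * (-u) := mul_nonneg (mul_nonneg ha hr) (by linarith)
    have h2 : 0 ≤ a ^ 2 * (1 + u) := mul_nonneg (sq_nonneg a) (by linarith)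
    nlinarith [sq_nonneg r]

/-- Job KU-CNT. -/
theorem cnt : S_CNT := by
  intro n A μ κ c θ hn hA hμ hκ hc hQ hrow h16 hsin hcos hR
  have hnR : (0 : ℝ) < n := by exact_mod_cast hn
  set Cc : ℝ := ∑ i, Real.cos (θ i) with hCc
  set Ss : ℝ := ∑ i, Real.sin (θ i) with hSs
  have hR0 : 0 < Cc ^ 2 + Ss ^ 2 := lt_of_lt_of_le (by positivity) hR
  set S0 : ℝ := √(Cc ^ 2 + Ss ^ 2) with hS0
  have hS0pos : 0 < S0 := Real.sqrt_pos.2 hR0
  have hS0sq : S0 ^ 2 = Cc ^ 2 + Ss ^ 2 := Real.sq_sqrt hR0.le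
  have hS0n : (n : ℝ) / 2 ≤ S0 := by
    apply Real.le_sqrt_of_sq_le
    calc ((n : ℝ) / 2) ^ 2 = (n : ℝ) ^ 2 / 4 := by ring
      _ ≤ _ := hR
  set ρ : ℝ := S0 / n with hρ
  have hρ1 : 1 / 2 ≤ ρ := by
    rw [hρ, le_div_iff₀ hnR]
    linarith
  have hnρ : n * ρ = S0 := by
    rw [hρ]
    field_simp
  set u : Fin n → ℝ := fun i => (Real.cos (θ i) * Cc + Real.sin (θ i) * Ss) / S0 with hu
  set v : Fin n → ℝ := fun i => (Real.sin (θ i) * Cc - Real.cos (θ i) * Ss) / S0 with hv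
  have hcs : ∀ i, Real.cos (θ i) ^ 2 + Real.sin (θ i) ^ 2 = 1 := fun i => Real.cos_sq_add_sin_sq _
  have huvij : ∀ i j, u i * u j + v i * v j = Real.cos (θ i - θ j) := by
    intro i j
    rw [Real.cos_sub]
    simp only [hu, hv]
    field_simp
    rw [hS0sq]
    ring
  have hsij : ∀ i j, v i * u j - u i * v j = Real.sin (θ i - θ j) := by
    intro i j
    rw [Real.sin_sub]
    simp only [hu, hv]
    field_simp
    rw [hS0sq]
    ring
  have huv : ∀ i, u i ^ 2 + v i ^ 2 = 1 := by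
    intro i
    have := huvij i i
    rw [sub_self, Real.cos_zero] at this
    rw [sq, sq]
    exact this
  have hsumu : ∑ i, u i = n * ρ := by
    rw [hnρ]
    simp only [hu]
    rw [← Finset.sum_div, Finset.sum_add_distrib, ← Finset.sum_mul, ← Finset.sum_mul, ← hCc, ← hSs]
    rw [div_eq_iff hS0pos.ne', ← sq, ← sq, ← sq, hS0sq]
  have hsumv : ∑ i, v i = 0 := by
    simp only [hv]
    rw [← Finset.sum_div, Finset.sum_sub_distrib, ← Finset.sum_mul, ← Finset.sum_mul, ← hCc, ← hSs]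
    rw [div_eq_zero_iff]
    left
    ring
  set r : Fin n → ℝ := fun i => ∑ j, A i j * Real.cos (θ i - θ j) with hr
  have hr0 : ∀ i, 0 ≤ r i := hcos
  have hU : ∀ i, ∑ j, A i j * u j = r i * u i ∧ ∑ j, A i j * v j = r i * v i := by
    intro i
    have h1 : u i * (∑ j, A i j * u j) + v i * (∑ j, A i j * v j) = r i := by
      rw [hr, Finset.mul_sum, Finset.mul_sum, ← Finset.sum_add_distrib]
      apply Finset.sum_congr rfl
      intro j _
      rw [← huvij i j]
      ring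
    have h2 : v i * (∑ j, A i j * u j) - u i * (∑ j, A i j * v j) = 0 := by
      rw [← hsin i, Finset.mul_sum, Finset.mul_sum, ← Finset.sum_sub_distrib]
      apply Finset.sum_congr rfl
      intro j _
      rw [← hsij i j]
      ring
    have h3 := huv i
    constructor
    · linear_combination (u i) * h1 + (v i) * h2 - (∑ j, A i j * u j) * h3
    · linear_combination (v i) * h1 - (u i) * h2 - (∑ j, A i j * v j) * h3
  set a : Fin n → ℝ := fun i => ρ * ∑ j, A i j with ha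
  have hw : ∀ i, ∑ j, (A i j - μ) * (u j - ρ) = r i * u i - a i := by
    intro i
    have h1 : ∑ j, (A i j - μ) * (u j - ρ) = ∑ j, A i j * u j - ρ * ∑ j, A i j -
        μ * (∑ j, u j) + μ * (n * ρ) := by
      have h2 : (n : ℝ) * ρ = ∑ _j : Fin n, ρ := by simp
      rw [h2, Finset.mul_sum, Finset.mul_sum, Finset.mul_sum, ← Finset.sum_sub_distrib,
        ← Finset.sum_sub_distrib, ← Finset.sum_add_distrib]
      apply Finset.sum_congr rfl
      intro j _
      ring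
    rw [h1, (hU i).1, hsumu]
    simp only [ha]
    ring
  have hw' : ∀ i, ∑ j, (A i j - μ) * v j = r i * v i := by
    intro i
    have h1 : ∑ j, (A i j - μ) * v j = ∑ j, A i j * v j - μ * ∑ j, v j := by
      rw [Finset.mul_sum, ← Finset.sum_sub_distrib]
      apply Finset.sum_congr rfl
      intro j _
      ring
    rw [h1, (hU i).2, hsumv]
    ring
  have ha1 : ∀ i, c * μ * n / 2 ≤ a i := by
    intro i
    have h1 := hrow i
    have h2 : 0 < c * μ * n := by positivity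
    simp only [ha]
    nlinarith
  have hMs : ∀ i j, A i j - μ = A j i - μ := fun i j => by rw [hA i j]
  have hs1 := sym n (fun i j => A i j - μ) κ hκ hMs hQ (fun i => u i - ρ)
  have hs2 := sym n (fun i j => A i j - μ) κ hκ hMs hQ v
  simp only [hw] at hs1
  simp only [hw'] at hs2
  set D : ℝ := ∑ i, ((u i - 1) ^ 2 + v i ^ 2) with hD
  have hD0 : 0 ≤ D := Finset.sum_nonneg fun i _ => by positivity
  have hDρ : ∑ i, (u i - ρ) ^ 2 + ∑ i, v i ^ 2 ≤ D := by
    have h1 : D - (∑ i, (u i - ρ) ^ 2 + ∑ i, v i ^ 2) = n * (1 - ρ) ^ 2 := by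
      have h2 : D - (∑ i, (u i - ρ) ^ 2 + ∑ i, v i ^ 2) =
          -(2 * (1 - ρ)) * (∑ i, u i) + ∑ _i : Fin n, (1 - ρ ^ 2) := by
        rw [hD, Finset.mul_sum, ← Finset.sum_add_distrib, ← Finset.sum_sub_distrib,
          ← Finset.sum_add_distrib]
        apply Finset.sum_congr rfl
        intro i _
        ring
      rw [h2, hsumu, Finset.sum_const, Finset.card_univ, Fintype.card_fin, nsmul_eq_mul]
      ring
    have h3 : 0 ≤ (n : ℝ) * (1 - ρ) ^ 2 := by positivity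
    linarith
  have hmain : (c * μ * n / 2) ^ 2 * D ≤ 4 * κ ^ 2 * D := by
    calc (c * μ * n / 2) ^ 2 * D = ∑ i, (c * μ * n / 2) ^ 2 * ((u i - 1) ^ 2 + v i ^ 2) := by
          rw [hD, Finset.mul_sum]
      _ ≤ ∑ i, 4 * ((r i * u i - a i) ^ 2 + (r i * v i) ^ 2) := by
          apply Finset.sum_le_sum
          intro i _
          have h1 := plane_est (a i) (r i) (u i) (v i)
            (le_trans (by positivity) (ha1 i)) (hr0 i) (huv i)
          refine le_trans ?_ h1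
          apply mul_le_mul_of_nonneg_right _ (by positivity)
          exact pow_le_pow_left₀ (by positivity) (ha1 i) 2
      _ = 4 * (∑ i, (r i * u i - a i) ^ 2 + ∑ i, (r i * v i) ^ 2) := by
          rw [← Finset.sum_add_distrib, Finset.mul_sum]
      _ ≤ 4 * (κ ^ 2 * ∑ i, (u i - ρ) ^ 2 + κ ^ 2 * ∑ i, v i ^ 2) := by linarith
      _ = 4 * κ ^ 2 * (∑ i, (u i - ρ) ^ 2 + ∑ i, v i ^ 2) := by ring
      _ ≤ 4 * κ ^ 2 * D := mul_le_mul_of_nonneg_left hDρ (by positivity)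
  have hDz : D = 0 := by
    by_contra hne
    have hDpos : 0 < D := lt_of_le_of_ne hD0 (Ne.symm hne)
    nlinarith
  have hz := (Finset.sum_eq_zero_iff_of_nonneg (fun i _ => by positivity)).1 (hD ▸ hDz)
  have hui : ∀ i, u i = 1 ∧ v i = 0 := by
    intro i
    have h1 := hz i (Finset.mem_univ i)
    have h2 := sq_nonneg (u i - 1)
    have h3 := sq_nonneg (v i)
    constructor
    · have : (u i - 1) ^ 2 = 0 := by linarith
      have := pow_eq_zero_iff (two_ne_zero) |>.1 this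
      linarith
    · have : v i ^ 2 = 0 := by linarith
      exact pow_eq_zero_iff (two_ne_zero) |>.1 this
  intro i j
  rw [← huvij i j, (hui i).1, (hui j).1, (hui i).2, (hui j).2]
  norm_num

end Pool.Agent.Q272.KU
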